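import Pool.Agent.H56.ER2.Targets

/-! Row ASM: the order is asymmetric. -/

set_option autoImplicit false

namespace Pool.Agent.H78.ER2

open Pool.Agent.H48.ER Pool.Agent.H52.ER2 Pool.Agent.H66.ER2 Pool.Agent.H56.ER2

theorem pf_ASM (hFCT : T_FCT) (hOGE : T_OGE) (hASZ : T_ASZ) (hAST : T_AST) (hASI : T_ASI)
    (hAH : T_AH) (hII1 : T_II1) (hII3 : T_II3) (hRH2 : T_RH2) (hIA3 : T_IA3) (hIB2 : T_IB2) :
    T_ASM := by
  intro V G v n z b a a' hS hT h1 h2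
  have hF := hFCT V G v n z hS
  have hO := hOGE V G v n z hS
  obtain ⟨p, q, y, x, h0⟩ := hASZ V G v n z b a a' h1 h2
  have hA2 := hAST V G v n z p q y x hS hF hO h0
  obtain ⟨i, j, k, hA⟩ := hASI V G v n z p q y x hS hF hO hA2
  obtain ⟨ip, r1, y0, x0, yx, ny, nx, hv, hz⟩ := hAH V G v n z p q y x i j k hA
  have hn := hF.four
  have hz1 := hF.vw (z 1) ⟨1, by omega, by omega, rfl⟩
  have hcom : ∀ u ∈ seg y 1 i ∪ seg x 1 j, ¬ (G.Adj v u ∧ G.Adj (z 1) u) := by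
    rintro u (⟨l, l1, l2, rfl⟩ | ⟨l, l1, l2, rfl⟩) ⟨e1, e2⟩
    · exact hA.vzy l l1 (by have := hA.ip; omega) e1 e2
    · exact hA.vzx l l1 (by have := hA.jk; have := hA.kq; omega) e1 e2
  rcases hRH2 V G v (z 1) (y 0) (x 0) (y 1) (x 1) (i + j - 1) (seg y 1 i ∪ seg x 1 j) hS.cls.noh ip
    r1 y0 x0 yx ny nx hv hz hz1.1.symm hz1.2 hA.ay.1 hA.ax.1 hA.ay.2.1.symm hA.ax.2.1.symm hcom
    (hII1 V G v n z p q y x i j k hS hF hA) (hII3 V G v n z p q y x i j k hS hF hT hA) with h | h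
  · exact hIA3 V G v n z p q y x i j k hS hF hA h
  · exact hIB2 V G v n z p q y x i j k hS hF hA h

end Pool.Agent.H78.ER2
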