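import Pool.Agent.H66.ER2.Lib

/-! Row GDP: the first vertex of the outer path which sees `P ∪ Q`. -/

set_option autoImplicit false

namespace Pool.Agent.H78.ER2.GDPx

open Pool.Agent.H48.ER Pool.Agent.H52.ER2 Pool.Agent.H66.ER2

variable {V : Type} {G : SimpleGraph V}

theorem path_cn {n : ℕ} {x y : V} {R : Set V} (h : IP G n x y R) : Cn G R := by
  obtain ⟨g, g0, gn, gi, ga, hR⟩ := h
  intro X hX hne hcl
  have hg : ∀ i, i ≤ n → g i ∈ R := fun i hi => by rw [hR]; exact ⟨i, hi, rfl⟩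
  obtain ⟨w, hw⟩ := hne
  have hwR := hX hw
  rw [hR] at hwR
  obtain ⟨i0, hi0, rfl⟩ := hwR
  have up : ∀ j, i0 + j ≤ n → g (i0 + j) ∈ X := by
    intro j
    induction j with
    | zero =>
      intro _
      exact hw
    | succ j ih =>
      intro hj
      refine hcl _ (ih (by omega)) _ (hg _ hj) ?_
      rw [ga _ _ (by omega) hj]
      left
      omega
  have dn : ∀ j, j ≤ i0 → g (i0 - j) ∈ X := by
    intro j
    induction j with
    | zero =>
      intro _
      exact hw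
    | succ j ih =>
      intro hj
      refine hcl _ (ih (by omega)) _ (hg _ (by omega)) ?_
      rw [ga _ _ (by omega) (by omega)]
      right
      omega
  refine Set.Subset.antisymm hX ?_
  intro w hw2
  rw [hR] at hw2
  obtain ⟨j, hj, rfl⟩ := hw2
  by_cases h : i0 ≤ j
  · have := up (j - i0) (by omega)
    rwa [show i0 + (j - i0) = j by omega] at this
  · have := dn (i0 - j) (by omega)
    rwa [show i0 - (i0 - j) = j by omega] at this

theorem cn_union {A B : Set V} {a b : V} (hA : Cn G A) (hB : Cn G B) (ha : a ∈ A) (hb : b ∈ B)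
    (hab : G.Adj a b) : Cn G (A ∪ B) := by
  intro X hX hne hcl
  have kA : (X ∩ A).Nonempty → A ⊆ X := by
    intro h
    have := hA (X ∩ A) Set.inter_subset_right h
      (fun u hu w hw e => ⟨hcl u hu.1 w (Or.inl hw) e, hw⟩)
    rw [← this]
    exact Set.inter_subset_left
  have kB : (X ∩ B).Nonempty → B ⊆ X := by
    intro h
    have := hB (X ∩ B) Set.inter_subset_right h
      (fun u hu w hw e => ⟨hcl u hu.1 w (Or.inr hw) e, hw⟩)
    rw [← this]
    exact Set.inter_subset_left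
  refine Set.Subset.antisymm hX ?_
  obtain ⟨w, hw⟩ := hne
  rcases hX hw with hwA | hwB
  · have h1 := kA ⟨w, hw, hwA⟩
    have h2 : b ∈ X := hcl a (h1 ha) b (Or.inr hb) hab
    exact Set.union_subset h1 (kB ⟨b, h2, hb⟩)
  · have h1 := kB ⟨w, hw, hwB⟩
    have h2 : a ∈ X := hcl b (h1 hb) a (Or.inl ha) hab.symm
    exact Set.union_subset (kA ⟨a, h2, ha⟩) h1

/-- every vertex of a path with an edge has a neighbour on it -/
theorem exists_nb {n : ℕ} {x y w : V} {R : Set V} (h : IP G n x y R) (hn : 1 ≤ n) (hw : w ∈ R) :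
    ∃ u ∈ R, G.Adj w u := by
  obtain ⟨g, g0, gn, gi, ga, hR⟩ := h
  have hg : ∀ i, i ≤ n → g i ∈ R := fun i hi => by rw [hR]; exact ⟨i, hi, rfl⟩
  rw [hR] at hw
  obtain ⟨i, hi, rfl⟩ := hw
  by_cases h : i < n
  · exact ⟨g (i + 1), hg _ h, (ga _ _ hi h).2 (Or.inl rfl)⟩
  · exact ⟨g (i - 1), hg _ (by omega), (ga _ _ hi (by omega)).2 (by omega)⟩

variable {v : V} {k : ℕ} {z : ℕ → V} {l r n m : ℕ} {a1 x b1 y a2 b2 a3 b3 : V}
  {L R P Q : Set V}

/-- (O) -/
theorem far (h : GCx G v k z l r n m a1 x b1 y a2 b2 a3 b3 L R P Q)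
    (ho : GOn G v k z x y L R P Q) {w : V} (hw : w ∈ P ∪ Q) (hv : G.Adj v w) :
    ∀ j, 0 < j → j < k → ¬ G.Adj w (z j) := by
  have hS : w ∈ vS L R P Q := by
    rcases hw with hw | hw
    · exact Or.inl (Or.inr hw)
    · exact Or.inr hw
  have hwx : w ≠ x := by
    rintro rfl
    rcases hw with hw | hw
    · exact Set.disjoint_left.1 h.sp.dLP h.sp.x_mem hw
    · exact Set.disjoint_left.1 h.sp.dLQ h.sp.x_mem hw
  have hwy : w ≠ y := by
    rintro rfl
    rcases hw with hw | hw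
    · exact Set.disjoint_left.1 h.sp.dRP h.sp.y_mem hw
    · exact Set.disjoint_left.1 h.sp.dRQ h.sp.y_mem hw
  intro j hj hjk
  exact h.t0 w hS hv (fun e => hwx (ho.1 w hS e)) (fun e => hwy (ho.2 w hS e)) (z j)
    ⟨j, hj, hjk, rfl⟩

theorem a12 (h : SPr G l r n m a1 x b1 y a2 b2 a3 b3 L R P Q) : G.Adj a1 a2 :=
  (h.eLP _ h.a1_mem _ h.a2_mem).2 ⟨rfl, rfl⟩

theorem a13 (h : SPr G l r n m a1 x b1 y a2 b2 a3 b3 L R P Q) : G.Adj a1 a3 :=
  (h.eLQ _ h.a1_mem _ h.a3_mem).2 ⟨rfl, rfl⟩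

theorem a23 (h : SPr G l r n m a1 x b1 y a2 b2 a3 b3 L R P Q) : G.Adj a2 a3 :=
  (h.ePQ _ h.a2_mem _ h.a3_mem).2 (Or.inl ⟨rfl, rfl⟩)

/-- (1) some interior vertex sees `P ∪ Q` -/
theorem sees (hCON : T_CON) (hEVN : T_EVN)
    (h : GCx G v k z l r n m a1 x b1 y a2 b2 a3 b3 L R P Q) :
    ∃ j, 0 < j ∧ j < k ∧ ∃ w ∈ P ∪ Q, G.Adj (z j) w := by
  by_contra hcon
  push Not at hcon
  have hk : 2 ≤ k := h.so.two
  have sp := h.sp
  have n1 : 1 ≤ n := sp.oP.pos
  have m1 : 1 ≤ m := sp.oQ.pos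
  have hseg : IP G (k - 1 - 1) (z 1) (z (k - 1)) (seg z 1 (k - 1)) :=
    h.so.pf.seg (by omega) (by omega)
  have hF : Cn G (L ∪ seg z 1 (k - 1) ∪ R) := by
    refine cn_union (cn_union (path_cn sp.ipL) (path_cn hseg) sp.x_mem hseg.left_mem h.hx.2.1)
      (path_cn sp.ipR) (Or.inr hseg.right_mem) sp.y_mem h.hy.2.1.symm
  obtain ⟨t, T, hT, hTF⟩ := hCON V G _ a1 b1 hF (Or.inl (Or.inl sp.a1_mem)) (Or.inr sp.b1_mem)
  have hzW : ∀ u ∈ seg z 1 (k - 1), ∀ w ∈ P ∪ Q, ¬ G.Adj u w := by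
    rintro u ⟨j, hj1, hj2, rfl⟩ w hw
    exact hcon j (by omega) (by omega) w hw
  have hzP : ∀ u ∈ seg z 1 (k - 1), u ∉ P ∪ Q := by
    intro u hu hu2
    rcases hu2 with hu2 | hu2
    · obtain ⟨w, hw, e⟩ := exists_nb sp.ipP n1 hu2
      exact hzW u hu w (Or.inl hw) e
    · obtain ⟨w, hw, e⟩ := exists_nb sp.ipQ m1 hu2
      exact hzW u hu w (Or.inr hw) e
  have hab : a1 ≠ b1 := by
    rintro rfl
    exact Set.disjoint_left.1 sp.dLR sp.a1_mem sp.b1_mem
  have ht : 1 ≤ t := by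
    by_contra h0
    have : t = 0 := by omega
    subst this
    exact hab hT.eq_of_zero.1
  have hTP : Disjoint T P := by
    rw [Set.disjoint_left]
    intro u hu hu2
    rcases hTF hu with (h1 | h1) | h1
    · exact Set.disjoint_left.1 sp.dLP h1 hu2
    · exact hzP u h1 (Or.inl hu2)
    · exact Set.disjoint_left.1 sp.dRP h1 hu2
  have hTQ : Disjoint T Q := by
    rw [Set.disjoint_left]
    intro u hu hu2
    rcases hTF hu with (h1 | h1) | h1
    · exact Set.disjoint_left.1 sp.dLQ h1 hu2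
    · exact hzP u h1 (Or.inr hu2)
    · exact Set.disjoint_left.1 sp.dRQ h1 hu2
  have hLb : ∀ u ∈ L, u ≠ b1 := fun u hu e =>
    Set.disjoint_left.1 sp.dLR hu (e ▸ sp.b1_mem)
  have hRa : ∀ u ∈ R, u ≠ a1 := fun u hu e =>
    Set.disjoint_left.1 sp.dLR sp.a1_mem (e ▸ hu)
  have xTP : ∀ u ∈ T, ∀ w ∈ P, G.Adj u w ↔ (u = a1 ∧ w = a2) ∨ (u = b1 ∧ w = b2) := by
    intro u hu w hw
    by_cases hL : u ∈ L
    · rw [sp.eLP u hL w hw]
      exact ⟨Or.inl, fun e => e.resolve_right fun e2 => hLb u hL e2.1⟩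
    by_cases hR : u ∈ R
    · rw [sp.eRP u hR w hw]
      exact ⟨Or.inr, fun e => e.resolve_left fun e2 => hRa u hR e2.1⟩
    rcases hTF hu with (h1 | h1) | h1
    · exact absurd h1 hL
    · constructor
      · intro e
        exact absurd e (hzW u h1 w (Or.inl hw))
      · rintro (e | e)
        · exact absurd (e.1 ▸ sp.a1_mem) hL
        · exact absurd (e.1 ▸ sp.b1_mem) hR
    · exact absurd h1 hR
  have xTQ : ∀ u ∈ T, ∀ w ∈ Q, G.Adj u w ↔ (u = a1 ∧ w = a3) ∨ (u = b1 ∧ w = b3) := by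
    intro u hu w hw
    by_cases hL : u ∈ L
    · rw [sp.eLQ u hL w hw]
      exact ⟨Or.inl, fun e => e.resolve_right fun e2 => hLb u hL e2.1⟩
    by_cases hR : u ∈ R
    · rw [sp.eRQ u hR w hw]
      exact ⟨Or.inr, fun e => e.resolve_left fun e2 => hRa u hR e2.1⟩
    rcases hTF hu with (h1 | h1) | h1
    · exact absurd h1 hL
    · constructor
      · intro e
        exact absurd e (hzW u h1 w (Or.inr hw))
      · rintro (e | e)
        · exact absurd (e.1 ▸ sp.a1_mem) hL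
        · exact absurd (e.1 ▸ sp.b1_mem) hR
    · exact absurd h1 hR
  have hpr := mk3 hT sp.ipP sp.ipQ ht n1 m1 hTP hTQ sp.dPQ xTP xTQ sp.ePQ
  have he := (hEVN V G _ _ _ _ h.cls.noh hpr).2 h.cls.nop 1
  have he2 : Even n := he
  exact (Nat.not_even_iff_odd.2 sp.oP) he2

theorem pf_GDP (hCON : T_CON) (hEVN : T_EVN) (hGMJ : T_GMJ) : T_GDP := by
  classical
  intro V G v k z l r n m a1 x b1 y a2 b2 a3 b3 L R P Q h ho
  have sp := h.sp
  have hk : 2 ≤ k := h.so.two
  have hmj := (hGMJ V G v k z l r n m a1 x b1 y a2 b2 a3 b3 L R P Q h).1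
  have hex := sees hCON hEVN h
  obtain ⟨hi0, hik, hisee⟩ := Nat.find_spec hex
  have hmin : ∀ j, j < Nat.find hex → ¬ (0 < j ∧ j < k ∧ ∃ w ∈ P ∪ Q, G.Adj (z j) w) :=
    fun j hj => Nat.find_min hex hj
  obtain ⟨i, hi⟩ : ∃ i, i = Nat.find hex := ⟨_, rfl⟩
  rw [← hi] at hi0 hik hisee hmin
  have hlow : ∀ j, 0 < j → j < i → ∀ w ∈ P ∪ Q, ¬ G.Adj (z j) w := by
    intro j hj0 hji w hw e
    exact hmin j hji ⟨hj0, by omega, w, hw, e⟩
  have hnot : ∀ j, 0 < j → j ≤ i → z j ∉ P ∪ Q := by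
    intro j hj0 hji hz
    by_cases hj2 : 2 ≤ j
    · refine hlow (j - 1) (by omega) (by omega) _ hz ?_
      rw [h.so.pf.adj _ _ (by omega) (by omega)]
      left
      omega
    · have hj1 : j = 1 := by omega
      subst hj1
      have hvz : ¬ G.Adj v (z 1) := (h.so.int 1 (by omega) (by omega)).2
      rcases hz with hz | hz
      · have e := (sp.eLP _ sp.x_mem _ hz).1 h.hx.2.1
        rw [e.2] at hvz
        have hv3 : G.Adj v a3 := by
          rcases hmj with e2 | e2 | e2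
          · exact absurd e2.2 hvz
          · exact e2.2
          · exact e2.2
        refine far h ho (Or.inr sp.a3_mem) hv3 1 (by omega) (by omega) ?_
        rw [e.2]
        exact (a23 sp).symm
      · have e := (sp.eLQ _ sp.x_mem _ hz).1 h.hx.2.1
        rw [e.2] at hvz
        have hv2 : G.Adj v a2 := by
          rcases hmj with e2 | e2 | e2
          · exact e2.2
          · exact absurd e2.2 hvz
          · exact e2.1
        refine far h ho (Or.inl sp.a2_mem) hv2 1 (by omega) (by omega) ?_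
        rw [e.2]
        exact a23 sp
  have hai : a1 ≠ z i := by
    intro e
    have hvz : ¬ G.Adj v (z i) := (h.so.int i hi0 hik).2
    rw [← e] at hvz
    have hv2 : G.Adj v a2 := by
      rcases hmj with e2 | e2 | e2
      · exact e2.2
      · exact absurd e2.1 hvz
      · exact e2.1
    refine far h ho (Or.inl sp.a2_mem) hv2 i hi0 hik ?_
    rw [← e]
    exact (a12 sp).symm
  -- the path
  obtain ⟨d, D, hD, hDs, hl0⟩ : ∃ (d : ℕ) (D : Set V), IP G d a1 (z i) D ∧
      (∀ w ∈ D, w ∈ L ∨ ∃ j, 0 < j ∧ j ≤ i ∧ z j = w) ∧ (l = 0 → d = i) := by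
    by_cases hl : l = 0
    · subst hl
      obtain ⟨e, hL⟩ := sp.ipL.eq_of_zero
      have hseg : IP G (i - 1) (z 1) (z i) (seg z 1 i) := h.so.pf.seg (by omega) (by omega)
      have hc := hseg.cons (u := a1) (by
        rintro ⟨j, hj1, hj2, e2⟩
        have h1 := (h.so.int j (by omega) (by omega)).2
        rw [e2, e] at h1
        exact h1 h.hx.1) (by
        rintro w ⟨j, hj1, hj2, rfl⟩
        rw [e]
        constructor
        · intro e2
          by_cases hj : j = 1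
          · rw [hj]
          · exact absurd e2 (h.hx.2.2 j (by omega) (by omega))
        · intro e2
          rw [e2]
          exact h.hx.2.1)
      rw [show i - 1 + 1 = i by omega] at hc
      refine ⟨i, _, hc, ?_, fun _ => rfl⟩
      rintro w (rfl | ⟨j, hj1, hj2, rfl⟩)
      · exact Or.inl sp.a1_mem
      · exact Or.inr ⟨j, by omega, hj2, rfl⟩
    · have hseg : IP G (i - 1) (z 1) (z i) (seg z 1 i) := h.so.pf.seg (by omega) (by omega)
      have hc : Cn G (L ∪ seg z 1 i) :=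
        cn_union (path_cn sp.ipL) (path_cn hseg) sp.x_mem hseg.left_mem h.hx.2.1
      obtain ⟨d, D, hD, hDs⟩ := hCON V G _ a1 (z i) hc (Or.inl sp.a1_mem)
        (Or.inr hseg.right_mem)
      refine ⟨d, D, hD, ?_, fun e => absurd e hl⟩
      intro w hw
      rcases hDs hw with h1 | ⟨j, hj1, hj2, rfl⟩
      · exact Or.inl h1
      · exact Or.inr ⟨j, by omega, hj2, rfl⟩
  refine ⟨i, d, D, hi0, hik, hlow, hnot, ?_, ?_, hl0, hDs⟩
  · refine ⟨sp.cyc, hD, ?_, ?_, a12 sp, a13 sp, ?_, hisee⟩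
    · by_contra h0
      have : d = 0 := by omega
      subst this
      exact hai hD.eq_of_zero.1
    · rw [Set.disjoint_left]
      intro u hu hu2
      rcases hDs u hu with h1 | ⟨j, hj1, hj2, rfl⟩
      · rcases hu2 with hu2 | hu2
        · exact Set.disjoint_left.1 sp.dLP h1 hu2
        · exact Set.disjoint_left.1 sp.dLQ h1 hu2
      · exact hnot j hj1 hj2 hu2
    · intro u hu hui w hw e
      rcases hDs u hu with h1 | ⟨j, hj1, hj2, rfl⟩
      · rcases hw with hw | hw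
        · have := (sp.eLP u h1 w hw).1 e
          exact ⟨this.1, Or.inl this.2⟩
        · have := (sp.eLQ u h1 w hw).1 e
          exact ⟨this.1, Or.inr this.2⟩
      · have hji : j ≠ i := by
          rintro rfl
          exact hui rfl
        exact absurd e (hlow j hj1 (by omega) w hw)
  · intro hv
    rcases hDs v hv with h1 | ⟨j, hj1, hj2, e⟩
    · exact h.nv (Or.inl (Or.inl (Or.inl h1)))
    · exact (h.so.int j hj1 (by omega)).1 e

end Pool.Agent.H78.ER2.GDPx

namespace Pool.Agent.H78.ER2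

open Pool.Agent.H48.ER Pool.Agent.H52.ER2 Pool.Agent.H66.ER2

theorem pf_GDP (hCON : T_CON) (hEVN : T_EVN) (hGMJ : T_GMJ) : T_GDP :=
  GDPx.pf_GDP hCON hEVN hGMJ

end Pool.Agent.H78.ER2
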