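import Pool.Agent.H66.ER2.Targets
import Pool.Agent.H48.ER.Lib

/-! Row MNA: no antihole in the meet. -/

set_option autoImplicit false

namespace Pool.Agent.H78.ER2

open Pool.Agent.H48.ER Pool.Agent.H52.ER2 Pool.Agent.H66.ER2

variable {V : Type} {G : SimpleGraph V} {s t : V}

theorem mt_adj_iff {a b : V} (has : a ≠ s) (hat : a ≠ t) (hbs : b ≠ s) (hbt : b ≠ t) :
    (mt G s t).Adj a b ↔ G.Adj a b :=
  ⟨fun h => h.2.2.1, fun h => ⟨hat, hbt, h, fun e => absurd e has, fun e => absurd e hbs⟩⟩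

theorem mt_adj_s {w : V} (hst : s ≠ t) (hws : w ≠ s) (hwt : w ≠ t) :
    (mt G s t).Adj s w ↔ G.Adj s w ∧ G.Adj t w :=
  ⟨fun h => ⟨h.2.2.1, h.2.2.2.1 rfl⟩,
    fun h => ⟨hst, hwt, h.1, fun _ => h.2, fun e => absurd e hws⟩⟩

theorem cadj_iff {a b : V} (has : a ≠ s) (hat : a ≠ t) (hbs : b ≠ s) (hbt : b ≠ t) :
    Gᶜ.Adj a b ↔ (mt G s t)ᶜ.Adj a b := by
  rw [SimpleGraph.compl_adj, SimpleGraph.compl_adj, mt_adj_iff has hat hbs hbt]

theorem cadj_t {w : V} (h : t ≠ w) : (mt G s t)ᶜ.Adj t w := by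
  rw [SimpleGraph.compl_adj]
  exact ⟨h, fun e => e.1 rfl⟩

/-- the vertex `t` is not on the path -/
theorem t_notMem {n : ℕ} {u v : V} {R : Set V} (h : IP (mt G s t)ᶜ n u v R) (hn : 3 ≤ n) :
    t ∉ R := by
  obtain ⟨g, g0, gn, gi, ga, hR⟩ := h
  intro ht
  rw [hR] at ht
  obtain ⟨i, hi, rfl⟩ := ht
  have key : ∀ j, j ≤ n → j ≠ i → i + 1 = j ∨ j + 1 = i := by
    intro j hj hji
    rw [← ga i j hi hj]
    exact cadj_t fun e => hji (gi j i hj hi e.symm)
  by_cases h2 : 2 ≤ i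
  · have := key 0 (by omega) (by omega)
    omega
  · have := key 3 (by omega) (by omega)
    omega

theorem t_ne_c {n : ℕ} {u v c : V} {R : Set V} (h : IP (mt G s t)ᶜ n u v R) (hn : 3 ≤ n)
    (hc : c ∉ R) (hall : ∀ w ∈ R, (mt G s t)ᶜ.Adj c w → w = u ∨ w = v) : c ≠ t := by
  rintro rfl
  obtain ⟨g, g0, gn, gi, ga, hR⟩ := h
  have h1 : g 1 ∈ R := by
    rw [hR]
    exact ⟨1, by omega, rfl⟩
  rcases hall _ h1 (cadj_t fun e => hc (e ▸ h1)) with e | e
  · have := gi 1 0 (by omega) (by omega) (e.trans g0.symm)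
    omega
  · have := gi 1 n (by omega) (by omega) (e.trans gn.symm)
    omega

theorem core3 (hN : NAH G) (hst : s ≠ t) (hadj : ¬ G.Adj s t) {n : ℕ} {u v : V} {R : Set V}
    (h : IP Gᶜ n u v R) (hn : 3 ≤ n) (hs : s ∉ R) (ht : t ∉ R)
    (hb : ∀ w ∈ R, w ≠ u → w ≠ v → G.Adj s w ∧ G.Adj t w)
    (su : ¬ G.Adj s u) (sv : G.Adj s v) (tu : G.Adj t u) (tv : ¬ G.Adj t v) : False := by
  have ne : ∀ {a w : V}, a ∉ R → w ∈ R → a ≠ w := fun ha hw e => ha (e ▸ hw)
  have h1 : IP Gᶜ (n + 1) u t (insert t R) := by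
    refine h.snoc ht ?_
    intro w hw
    rw [SimpleGraph.compl_adj]
    constructor
    · rintro ⟨_, h2⟩
      by_contra hwv
      by_cases hwu : w = u
      · exact h2 (hwu ▸ tu)
      · exact h2 (hb w hw hwu hwv).2
    · rintro rfl
      exact ⟨ne ht hw, tv⟩
  refine hN (n + 1) u t s (insert t R) h1 (by omega) ?_ ?_ ?_ ?_
  · rintro (h2 | h2)
    · exact hst h2
    · exact hs h2
  · rw [SimpleGraph.compl_adj]
    exact ⟨ne hs h.left_mem, su⟩
  · rw [SimpleGraph.compl_adj]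
    exact ⟨hst, hadj⟩
  · rintro w (rfl | hw) h2
    · exact Or.inr rfl
    · rw [SimpleGraph.compl_adj] at h2
      by_cases hwu : w = u
      · exact Or.inl hwu
      · by_cases hwv : w = v
        · exact absurd (hwv ▸ sv) h2.2
        · exact absurd (hb w hw hwu hwv).1 h2.2

theorem core (hN : NAH G) (hst : s ≠ t) (hadj : ¬ G.Adj s t) {n : ℕ} {u v : V} {R : Set V}
    (h : IP (mt G s t)ᶜ n u v R) (hn : 3 ≤ n) (hs : s ∉ R) (hsu : (mt G s t)ᶜ.Adj s u)
    (hsv : (mt G s t)ᶜ.Adj s v)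
    (hall : ∀ w ∈ R, (mt G s t)ᶜ.Adj s w → w = u ∨ w = v) : False := by
  have ht : t ∉ R := t_notMem h hn
  have ne : ∀ {a w : V}, a ∉ R → w ∈ R → a ≠ w := fun ha hw e => ha (e ▸ hw)
  have hG : IP Gᶜ n u v R := h.congr fun a ha b hb =>
    cadj_iff (ne hs ha).symm (ne ht ha).symm (ne hs hb).symm (ne ht hb).symm
  have hb : ∀ w ∈ R, w ≠ u → w ≠ v → G.Adj s w ∧ G.Adj t w := by
    intro w hw hwu hwv
    rw [← mt_adj_s hst (ne hs hw).symm (ne ht hw).symm]
    by_contra h2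
    rcases hall w hw ((SimpleGraph.compl_adj _ _ _).2 ⟨ne hs hw, h2⟩) with e | e
    · exact hwu e
    · exact hwv e
  have hu : ¬ (G.Adj s u ∧ G.Adj t u) := by
    rw [← mt_adj_s hst (ne hs h.left_mem).symm (ne ht h.left_mem).symm]
    exact ((SimpleGraph.compl_adj _ _ _).1 hsu).2
  have hv : ¬ (G.Adj s v ∧ G.Adj t v) := by
    rw [← mt_adj_s hst (ne hs h.right_mem).symm (ne ht h.right_mem).symm]
    exact ((SimpleGraph.compl_adj _ _ _).1 hsv).2
  -- a vertex which misses both ends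
  have case1 : ∀ a : V, a ∉ R → (∀ w ∈ R, w ≠ u → w ≠ v → G.Adj a w) → ¬ G.Adj a u →
      ¬ G.Adj a v → False := by
    intro a ha h1 h2 h3
    refine hN n u v a R hG hn ha ?_ ?_ ?_
    · rw [SimpleGraph.compl_adj]
      exact ⟨ne ha h.left_mem, h2⟩
    · rw [SimpleGraph.compl_adj]
      exact ⟨ne ha h.right_mem, h3⟩
    · intro w hw h4
      rw [SimpleGraph.compl_adj] at h4
      by_contra h5
      push Not at h5
      exact h4.2 (h1 w hw h5.1 h5.2)
  by_cases su : G.Adj s u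
  · have tu : ¬ G.Adj t u := fun e => hu ⟨su, e⟩
    by_cases tv : G.Adj t v
    · have sv : ¬ G.Adj s v := fun e => hv ⟨e, tv⟩
      exact core3 hN hst hadj hG.rev hn hs ht (fun w hw h1 h2 => hb w hw h2 h1) sv su tv tu
    · exact case1 t ht (fun w hw h1 h2 => (hb w hw h1 h2).2) tu tv
  · by_cases sv : G.Adj s v
    · have tv : ¬ G.Adj t v := fun e => hv ⟨sv, e⟩
      by_cases tu : G.Adj t u
      · exact core3 hN hst hadj hG hn hs ht hb su sv tu tv
      · exact case1 t ht (fun w hw h1 h2 => (hb w hw h1 h2).2) tu tv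
    · exact case1 s hs (fun w hw h1 h2 => (hb w hw h1 h2).1) su sv

theorem pf_MNA (hROT : T_ROT) : T_MNA := by
  intro V G s t hN hst hadj n u v c R h hn hc hcu hcv hall
  by_cases hsR : s ∈ R
  · obtain ⟨u', v', R', h1, h2, _, h4, h5, h6⟩ :=
      hROT V (mt G s t)ᶜ n u v c R h (by omega) hc hcu hcv hall s hsR
    exact core hN hst hadj h1 hn h2 h4 h5 h6
  · by_cases hcs : c = s
    · subst hcs
      exact core hN hst hadj h hn hc hcu hcv hall
    · have ht : t ∉ R := t_notMem h hn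
      have hct : c ≠ t := t_ne_c h hn hc hall
      have ne : ∀ {a w : V}, a ∉ R → w ∈ R → a ≠ w := fun ha hw e => ha (e ▸ hw)
      refine hN n u v c R ?_ hn hc ?_ ?_ ?_
      · exact h.congr fun a ha b hb =>
          cadj_iff (ne hsR ha).symm (ne ht ha).symm (ne hsR hb).symm (ne ht hb).symm
      · exact (cadj_iff hcs hct (ne hsR h.left_mem).symm (ne ht h.left_mem).symm).2 hcu
      · exact (cadj_iff hcs hct (ne hsR h.right_mem).symm (ne ht h.right_mem).symm).2 hcv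
      · intro w hw h1
        exact hall w hw ((cadj_iff hcs hct (ne hsR hw).symm (ne ht hw).symm).1 h1)

end Pool.Agent.H78.ER2
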